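import Mathlib
import Pool.Agent.Helper278.Defs
import Pool.Agent.Helper278.DefsG
import Pool.Agent.Helper278.GroupMain

set_option autoImplicit false

open scoped BoundedContinuousFunction

namespace Pool.Agent.Results.MP_a0a75b_an.Never

open Pool.Agent.Helper278

universe u v w

variable {H : Type u} [NormedAddCommGroup H] [InnerProductSpace ℂ H] [CompleteSpace H]

/-- Sanity check: the tracial ultrapower quantified over below always exists. -/
theorem ultrapower_exists (R : VonNeumannAlgebra H) (τ : Elt R → ℂ) (h : IsIIOneFactor R τ)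
    (U : Ultrafilter ℕ) :
    ∃ (Q : Type u) (_ : Ring Q) (_ : StarRing Q) (_ : Algebra ℂ Q) (_ : StarModule ℂ Q)
      (π : (ℕ →ᵇ Elt R) →⋆ₐ[ℂ] Q) (σ : Q → ℂ), IsTracialUltrapower τ U π σ :=
  exists_ultrapower (mkState R τ h.normal h.trace) U

/-- Sanity check: the left regular representation on `ℓ²(G)` is an instance of the one quantified
over below. -/
theorem leftRegular_exists (G : Type v) [Group G] :
    ∃ (b : HilbertBasis G ℂ (lp (fun _ : G => ℂ) 2))
      (lam : G → (lp (fun _ : G => ℂ) 2) →L[ℂ] (lp (fun _ : G => ℂ) 2)),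
      IsLeftRegular b lam ∧ ∀ (g h : G) (f : lp (fun _ : G => ℂ) 2), (lam g f) h = f (g⁻¹ * h) :=
  exists_leftRegular G

/-- No tracial ultrapower of the hyperfinite II₁ factor along a nonprincipal ultrafilter on `ℕ` is
isomorphic to a group von Neumann algebra. -/
theorem result (R : VonNeumannAlgebra H) (τ : Elt R → ℂ) (h : IsIIOneFactor R τ)
    (_hR : IsHyperfinite (Elt R) τ) : UltrapowersNotGroupVN.{u, v, w} (Elt R) τ :=
  ultrapowersNotGroupVN τ h

end Pool.Agent.Results.MP_a0a75b_an.Never
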